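import Pool.Agent.Run7.h723.OG.Iface2

set_option autoImplicit false

namespace Pool.Agent.Run7.h538.OG

open Pool.H723.OG Finset

section
variable {V : Type} [Fintype V] [DecidableEq V] (G : SimpleGraph V)

open Classical in
theorem nb_triple {x y z : V} (hxy : x ≠ y) (hxz : x ≠ z) (hyz : y ≠ z) (v : V) :
    nb G {x, y, z} v = (if G.Adj x v then 1 else 0) + (if G.Adj y v then 1 else 0) +
      (if G.Adj z v then 1 else 0) := by
  unfold nb
  rw [Finset.card_filter, Finset.sum_insert (by simp [hxy, hxz]),
    Finset.sum_insert (by simp [hyz]), Finset.sum_singleton, add_assoc]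

open Classical in
theorem w3_le {x y z : V} (hxy : x ≠ y) (hxz : x ≠ z) (hyz : y ≠ z) (N : Finset V)
    (hx : ∀ v, G.Adj x v ↔ v ∈ N) (hy : ∀ v, G.Adj y v ↔ v ∈ N) :
    w3 G x y z ≤ (N.erase z).card + ((N.erase z).filter fun v => G.Adj z v).card := by
  have h3 : lev G {x, y, z} 3 ⊆ (N.erase z).filter fun v => G.Adj z v := by
    intro v hv
    simp only [lev, mem_filter, mem_univ, true_and] at hv
    obtain ⟨hv1, hv2⟩ := hv
    rw [nb_triple G hxy hxz hyz] at hv2
    simp only [mem_insert, mem_singleton, not_or] at hv1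
    rw [mem_filter, mem_erase]
    by_cases a : G.Adj x v <;> by_cases b : G.Adj y v <;> by_cases c : G.Adj z v <;>
      simp [a, b, c] at hv2 ⊢
    exact ⟨hv1.2.2, (hx v).1 a⟩
  have h2 : lev G {x, y, z} 2 ⊆ (N.erase z).filter fun v => ¬ G.Adj z v := by
    intro v hv
    simp only [lev, mem_filter, mem_univ, true_and] at hv
    obtain ⟨hv1, hv2⟩ := hv
    rw [nb_triple G hxy hxz hyz] at hv2
    simp only [mem_insert, mem_singleton, not_or] at hv1
    rw [mem_filter, mem_erase]
    have hxy' : G.Adj x v ↔ G.Adj y v := (hx v).trans (hy v).symm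
    by_cases a : G.Adj x v
    · have b := hxy'.1 a
      by_cases c : G.Adj z v
      · simp [a, b, c] at hv2
      · exact ⟨⟨hv1.2.2, (hx v).1 a⟩, c⟩
    · have b : ¬ G.Adj y v := fun h => a (hxy'.2 h)
      by_cases c : G.Adj z v <;> simp [a, b, c] at hv2
  have e := Finset.card_filter_add_card_filter_not (s := N.erase z) (fun v => G.Adj z v)
  have c3 := Finset.card_le_card h3
  have c2 := Finset.card_le_card h2
  unfold w3
  omega

theorem cost_two (D : Finset V) (h : ∀ v, v ∉ D → 2 ≤ nb G D v) : cost2 G D = 2 * D.card := by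
  have h0 : lev G D 0 = ∅ := by
    rw [Finset.eq_empty_iff_forall_notMem]
    intro v hv
    simp only [lev, mem_filter, mem_univ, true_and] at hv
    have := h v hv.1
    omega
  have h1 : lev G D 1 = ∅ := by
    rw [Finset.eq_empty_iff_forall_notMem]
    intro v hv
    simp only [lev, mem_filter, mem_univ, true_and] at hv
    have := h v hv.1
    omega
  unfold cost2
  rw [h0, h1]
  simp

open Classical in
theorem two_nb {D : Finset V} {a b v : V} (ha : a ∈ D) (hb : b ∈ D) (hab : a ≠ b)
    (h1 : G.Adj a v) (h2 : G.Adj b v) : 2 ≤ nb G D v := by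
  unfold nb
  have : 1 < (D.filter fun u => G.Adj u v).card := by
    rw [Finset.one_lt_card]
    exact ⟨a, by simp [ha, h1], b, by simp [hb, h2], hab⟩
  exact this

end

theorem t_TW3 (hCOST : S_COST) : S_TW3 := by
  intro V _ _ G hn hw hd hK htw
  classical
  have hKmem : ∀ v, v ∈ low G 3 ↔ dg G v = 3 := by
    intro v
    simp only [low, mem_filter, mem_univ, true_and]
    have := hd v
    omega
  obtain ⟨x, hx, y, hy, hxy⟩ := Finset.one_lt_card.1 (show 1 < (low G 3).card by omega)
  set N : Finset V := univ.filter (fun u => G.Adj u x) with hN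
  have hNc : N.card = 3 := (hKmem x).1 hx
  have hNK : ∀ k ∈ low G 3, ∀ v, G.Adj k v ↔ v ∈ N := by
    intro k hk v
    rw [hN, mem_filter, G.adj_comm v x]
    simpa using htw k x ((hKmem k).1 hk) ((hKmem x).1 hx) v
  have hKN : ∀ k ∈ low G 3, k ∉ N := fun k hk h => G.loopless.irrefl k ((hNK k hk k).2 h)
  have hxN := hNK x hx
  have hyN := hNK y hy
  -- N is a clique
  have hcl : ∀ a ∈ N, ∀ b ∈ N, a ≠ b → G.Adj a b := by
    intro a ha b hb hab
    have hxa : x ≠ a := fun h => hKN x hx (h ▸ ha)
    have hya : y ≠ a := fun h => hKN y hy (h ▸ ha)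
    have h1 := hw x y a hxy hxa hya
    have h2 := w3_le G hxy hxa hya N hxN hyN
    have h3 : (N.erase a).card = 2 := by rw [card_erase_of_mem ha, hNc]
    have h4 : (N.erase a).filter (fun v => G.Adj a v) = N.erase a := by
      apply Finset.eq_of_subset_of_card_le (filter_subset _ _)
      omega
    have h5 : b ∈ (N.erase a).filter (fun v => G.Adj a v) := by
      rw [h4]; exact mem_erase.2 ⟨hab.symm, hb⟩
    exact (mem_filter.1 h5).2
  -- every other vertex has a neighbour in N
  have hnbN : ∀ z, z ∉ N → z ∉ low G 3 → 1 ≤ nb G N z := by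
    intro z hz hzK
    by_contra hcon
    have hxz : x ≠ z := fun h => hzK (h ▸ hx)
    have hyz : y ≠ z := fun h => hzK (h ▸ hy)
    have h1 := hw x y z hxy hxz hyz
    have h2 := w3_le G hxy hxz hyz N hxN hyN
    have h3 : (N.erase z).card ≤ 3 := by rw [Finset.erase_eq_of_notMem hz, hNc]
    have h4 : ((N.erase z).filter fun v => G.Adj z v).card ≤ nb G N z := by
      unfold nb
      apply Finset.card_le_card
      intro v hv
      rw [mem_filter, mem_erase] at hv
      rw [mem_filter]
      exact ⟨hv.1.2, (G.adj_comm z v).1 hv.2⟩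
    omega
  have hnbK : ∀ k ∈ low G 3, nb G N k = 3 := by
    intro k hk
    unfold nb
    rw [← hNc]
    congr 1
    rw [Finset.filter_eq_self]
    intro u hu
    exact ((hNK k hk u).2 hu).symm
  set Z : Finset V := univ.filter (fun v => v ∉ N ∧ v ∉ low G 3) with hZ
  have hcards : Z.card + 3 + (low G 3).card = 10 := by
    have hdis : Disjoint N (low G 3) := by
      rw [Finset.disjoint_left]
      intro v hv hv2
      exact hKN v hv2 hv
    have e1 : Z = (N ∪ low G 3)ᶜ := by
      ext v
      simp [hZ, mem_union]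
    rw [e1, Finset.card_compl, Finset.card_union_of_disjoint hdis, hNc, hn]
    have : (N ∪ low G 3).card ≤ 10 := by rw [← hn]; exact Finset.card_le_univ _
    rw [Finset.card_union_of_disjoint hdis, hNc] at this
    omega
  have hlev0 : lev G N 0 = ∅ := by
    rw [Finset.eq_empty_iff_forall_notMem]
    intro v hv
    simp only [lev, mem_filter, mem_univ, true_and] at hv
    by_cases hvK : v ∈ low G 3
    · have := hnbK v hvK; omega
    · have := hnbN v hv.1 hvK; omega
  have hlev1 : lev G N 1 ⊆ Z := by
    intro v hv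
    simp only [lev, mem_filter, mem_univ, true_and] at hv
    rw [hZ, mem_filter]
    refine ⟨mem_univ _, hv.1, fun hvK => ?_⟩
    have := hnbK v hvK
    omega
  by_cases hs : (lev G N 1).card ≤ 3
  · apply hCOST V G N 4
    unfold cost2
    rw [hlev0, hNc]
    simp
    omega
  · have hZc : Z.card = 4 := by
      have := Finset.card_le_card hlev1
      omega
    have hZl : lev G N 1 = Z := by
      apply Finset.eq_of_subset_of_card_le hlev1
      omega
    have hZadj : ∀ z ∈ Z, ∀ z' ∈ Z, z ≠ z' → G.Adj z z' := by
      intro z hz z' hz' hne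
      have hz1 : nb G N z = 1 := by
        rw [← hZl] at hz
        simp only [lev, mem_filter, mem_univ, true_and] at hz
        exact hz.2
      have hzN := (mem_filter.1 hz).2
      have hd4 : 4 ≤ dg G z := by
        have h1 := hd z
        have h2 : dg G z ≠ 3 := fun h => hzN.2 ((hKmem z).2 h)
        omega
      have hsplit : dg G z ≤ nb G N z + ((Z.erase z).filter fun u => G.Adj u z).card := by
        unfold dg nb
        rw [← Finset.card_union_of_disjoint]
        · apply Finset.card_le_card
          intro u hu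
          rw [mem_filter] at hu
          by_cases huN : u ∈ N
          · exact mem_union_left _ (mem_filter.2 ⟨huN, hu.2⟩)
          · have huK : u ∉ low G 3 := fun h => hzN.1 ((hNK u h z).1 hu.2)
            exact mem_union_right _ (mem_filter.2 ⟨mem_erase.2 ⟨hu.2.ne,
              by rw [hZ, mem_filter]; exact ⟨mem_univ _, huN, huK⟩⟩, hu.2⟩)
        · rw [Finset.disjoint_left]
          intro u hu hu2
          rw [mem_filter] at hu
          rw [mem_filter, mem_erase, hZ, mem_filter] at hu2
          exact hu2.1.2.2.1 hu.1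
      have h3 : (Z.erase z).card = 3 := by rw [card_erase_of_mem hz, hZc]
      have h4 : (Z.erase z).filter (fun u => G.Adj u z) = Z.erase z := by
        apply Finset.eq_of_subset_of_card_le (filter_subset _ _)
        omega
      have h5 : z' ∈ (Z.erase z).filter (fun u => G.Adj u z) := by
        rw [h4]; exact mem_erase.2 ⟨hne.symm, hz'⟩
      exact ((mem_filter.1 h5).2).symm
    obtain ⟨a, ha, b, hb, hab⟩ := Finset.one_lt_card.1 (show 1 < N.card by omega)
    obtain ⟨z1, hz1, z2, hz2, hzz⟩ := Finset.one_lt_card.1 (show 1 < Z.card by omega)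
    have hD : cost2 G {a, b, z1, z2} = 2 * ({a, b, z1, z2} : Finset V).card := by
      apply cost_two
      intro v hv
      simp only [mem_insert, mem_singleton, not_or] at hv
      by_cases hvK : v ∈ low G 3
      · exact two_nb G (by simp) (by simp) hab ((hNK v hvK a).2 ha).symm ((hNK v hvK b).2 hb).symm
      · by_cases hvN : v ∈ N
        · exact two_nb G (by simp) (by simp) hab (hcl a ha v hvN (fun h => hv.1 h.symm))
            (hcl b hb v hvN (fun h => hv.2.1 h.symm))
        · have hvZ : v ∈ Z := by rw [hZ, mem_filter]; exact ⟨mem_univ _, hvN, hvK⟩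
          exact two_nb G (by simp) (by simp) hzz (hZadj z1 hz1 v hvZ (fun h => hv.2.2.1 h.symm))
            (hZadj z2 hz2 v hvZ (fun h => hv.2.2.2 h.symm))
    apply hCOST V G {a, b, z1, z2} 4
    rw [hD]
    have : ({a, b, z1, z2} : Finset V).card ≤ 4 := Finset.card_le_four
    omega

end Pool.Agent.Run7.h538.OG
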